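import Mathlib

/-!
# Polynomial rings in infinitely many variables: submodules stable under strictly increasing
substitutions; products of commutators (MP_335823_al): definitions and targets
-/

set_option autoImplicit false

open MvPolynomial
open scoped commutatorElement

namespace Pool.Agent.H87.CLG

universe u v

noncomputable section

/-! ## Definitions -/

section defs

variable (Λ : Type)

/-- polynomials over `ℤ` in the variables `x (i, l)`, `i : ℕ`, `l : Λ` -/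
abbrev PR : Type := MvPolynomial (ℕ × Λ) ℤ

/-- exponents of monomials -/
abbrev Mo : Type := (ℕ × Λ) →₀ ℕ

variable {Λ}

/-- the substitution `x (i, l) ↦ x (σ i, l)` -/
def sh (σ : ℕ → ℕ) : PR Λ →+* PR Λ := (rename (Prod.map σ (id : Λ → Λ))).toRingHom

/-- the same for exponents -/
def shm (σ : ℕ → ℕ) (u : Mo Λ) : Mo Λ := Finsupp.mapDomain (Prod.map σ (id : Λ → Λ)) u

/-- ideals which are stable under the substitutions with `σ` strictly increasing -/
def Stable (I : Ideal (PR Λ)) : Prop := ∀ σ : ℕ → ℕ, StrictMono σ → ∀ f ∈ I, sh σ f ∈ I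

/-- submodules of the free module of rank `n` which are stable under the substitutions -/
def StM {n : ℕ} (K : Submodule (PR Λ) (Fin n → PR Λ)) : Prop :=
  ∀ σ : ℕ → ℕ, StrictMono σ → ∀ f ∈ K, (fun c => sh σ (f c)) ∈ K

/-- divisibility up to a strictly increasing substitution -/
def Emb (u v : Mo Λ) : Prop := ∃ σ : ℕ → ℕ, StrictMono σ ∧ shm σ u ≤ v

/-- monomial orders which are compatible with the substitutions -/
structure IsMO (r : Mo Λ → Mo Λ → Prop) : Prop where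
  wo : IsWellOrder (Mo Λ) r
  add : ∀ u v w, r u v → r (u + w) (v + w)
  shift : ∀ (σ : ℕ → ℕ) (u v : Mo Λ), StrictMono σ → r u v → r (shm σ u) (shm σ v)

/-- the order of the monomials `x ^ u` in the component `c` -/
def Rm {n : ℕ} (r : Mo Λ → Mo Λ → Prop) (p q : Mo Λ × Fin n) : Prop :=
  r p.1 q.1 ∨ (p.1 = q.1 ∧ p.2 < q.2)

/-- the leading coefficients of the elements of `K` with leading monomial `p`, and `0` -/
def Lm {n : ℕ} (r : Mo Λ → Mo Λ → Prop) (K : Submodule (PR Λ) (Fin n → PR Λ))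
    (p : Mo Λ × Fin n) : Set ℤ :=
  {a | ∃ f ∈ K, coeff p.1 (f p.2) = a ∧
    ∀ q : Mo Λ × Fin n, coeff q.1 (f q.2) ≠ 0 → q = p ∨ Rm r q p}

end defs

/-- the product of the first `k` commutators -/
def pc {N : Type u} [Group N] (a b : ℕ → N) (k : ℕ) : N :=
  ((List.range k).map fun i => ⁅a i, b i⁆).prod

/-! ## A. Noetherianity up to strictly increasing substitutions -/

/-- HIG: Higman's lemma for monomials. -/
def T_HIG : Prop := ∀ (Λ : Type) [Finite Λ] (f : ℕ → Mo Λ),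
  ∃ g : ℕ → ℕ, StrictMono g ∧ ∀ i j, i < j → Emb (f (g i)) (f (g j))

/-- MOR: a monomial order. -/
def T_MOR : Prop := ∀ (Λ : Type) [Finite Λ], ∃ r : Mo Λ → Mo Λ → Prop, IsMO r

/-- RWO: the order of the monomials of the free module is a well-order. -/
def T_RWO : Prop := ∀ (Λ : Type) (n : ℕ) (r : Mo Λ → Mo Λ → Prop), IsMO r →
  IsWellOrder (Mo Λ × Fin n) (Rm r)

/-- LID: the leading coefficients form an ideal. -/
def T_LID : Prop := ∀ (Λ : Type) (n : ℕ) (r : Mo Λ → Mo Λ → Prop)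
  (K : Submodule (PR Λ) (Fin n → PR Λ)) (p : Mo Λ × Fin n), ∃ J : Ideal ℤ, (J : Set ℤ) = Lm r K p

/-- LEM: leading coefficients and embeddings of monomials. -/
def T_LEM : Prop := ∀ (Λ : Type) (n : ℕ) (r : Mo Λ → Mo Λ → Prop)
  (K : Submodule (PR Λ) (Fin n → PR Λ)) (u v : Mo Λ) (c : Fin n),
  IsMO r → StM K → Emb u v → Lm r K (u, c) ⊆ Lm r K (v, c)

/-- LEQ: a submodule is determined by its leading coefficients. -/
def T_LEQ : Prop := ∀ (Λ : Type) (n : ℕ) (r : Mo Λ → Mo Λ → Prop)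
  (K L : Submodule (PR Λ) (Fin n → PR Λ)),
  IsMO r → K ≤ L → (∀ p, Lm r L p ⊆ Lm r K p) → L ≤ K

/-- ACM: ascending chains of stable submodules are finite. -/
def T_ACM : Prop := ∀ (Λ : Type) [Finite Λ] (n : ℕ)
  (K : ℕ → Submodule (PR Λ) (Fin n → PR Λ)), (∀ j, StM (K j)) → Monotone K →
  ∃ N, ∀ j, N ≤ j → K j = K N

/-- ACI: ascending chains of stable ideals are finite. -/
def T_ACI : Prop := ∀ (Λ : Type) [Finite Λ] (I : ℕ → Ideal (PR Λ)), (∀ j, Stable (I j)) →
  Monotone I → ∃ N, ∀ j, N ≤ j → I j = I N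

/-- NIL: modulo `p` the nilpotent elements have bounded index. -/
def T_NIL : Prop := ∀ (Λ : Type) [Finite Λ] (I : Ideal (PR Λ)) (p : ℕ), p.Prime → Stable I →
  ∃ s : ℕ, ∀ (f : PR Λ) (N : ℕ), f ^ N ∈ I ⊔ Ideal.span {(p : PR Λ)} →
    f ^ (p ^ s) ∈ I ⊔ Ideal.span {(p : PR Λ)}

/-! ## B. Matrices -/

/-- UNI: unipotent matrices with torsion entries. -/
def T_UNI : Prop := ∀ (B : Type u) [CommRing B] (n D M : ℕ) (z : Matrix (Fin n) (Fin n) B),
  1 ≤ D → 1 ≤ M → (∀ i j, (D : B) * z i j = 0 ∧ z i j ^ M = 0) →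
  (1 + z) ^ (D * (n ^ 2 * M + 1).factorial) = 1

/-! ## D. Products of commutators and relatively free groups -/

/-- PCM: the elements of the derived subgroup. -/
def T_PCM : Prop := ∀ (N : Type u) [Group N] (g : N), g ∈ commutator N →
  ∃ (k : ℕ) (a b : ℕ → N), g = pc a b k

/-- REL: relatively free groups. -/
def T_REL : Prop := ∀ (G : Type u) [Group G] (X : Set G), Subgroup.closure X = ⊤ →
  (∀ f : X → G, ∃ ψ : G →* G, ∀ x : X, ψ (x : G) = f x) → (∀ g ∈ commutator G, IsOfFinOrder g) →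
  (X.Infinite → ∀ k : ℕ, ∃ m : ℕ, 1 ≤ m ∧ ∀ a b : ℕ → G, pc a b k ^ m = 1) ∧
  ∃ m : ℕ, 1 ≤ m ∧ ∀ a b : G, ⁅a, b⁆ ^ m = 1

end

end Pool.Agent.H87.CLG
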