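import Pool.Agent.H87.CLG.Rel2

/-!
# Chains with linear factors (MP_335823_al): assembly
-/

set_option autoImplicit false

open scoped commutatorElement

namespace Pool.Agent.H87.CLG

universe u v w

/-- CORE: linear groups over commutative rings -/
def T_CORE : Prop := ∀ (n : ℕ) (ν : ℕ → ℕ), (∀ k, 1 ≤ ν k) → ∃ e : ℕ, 1 ≤ e ∧
  ∀ (G : Type u) [Group G] (R : Type v) [CommRing R] (M : Type w) [AddCommGroup M] [Module R M]
    (ρ : G →* (M ≃ₗ[R] M)) (X : Set G), 1 ∈ X → (∀ x ∈ X, x⁻¹ ∈ X) →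
    (∀ x ∈ X, ∀ g : G, g * x * g⁻¹ ∈ X) → Subgroup.closure X = ⊤ →
    (∀ (k : ℕ) (a : ℕ → G), (∀ i, a i ∈ X) → ((List.range k).map a).prod ^ ν k = 1) →
    (∃ s : Fin n → M, Submodule.span R (Set.range s) = ⊤) → ∀ g : G, ρ (g ^ e) = 1

/-- the step for linear factors -/
theorem lin_step (hC : T_CORE.{u, v, w}) {G : Type u} [Group G] (ν : ℕ → ℕ)
    (hν : ∀ k, 1 ≤ ν k ∧ ∀ a b : ℕ → G, pc a b k ^ ν k = 1) (N K : Subgroup G)
    (R : Type v) [CommRing R] (M : Type w) [AddCommGroup M] [Module R M] [Module.Finite R M]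
    (ρ : N →* (M ≃ₗ[R] M)) (hρ : ∀ a : N, ρ a = 1 → (a : G) ∈ K) :
    ∃ e : ℕ, 0 < e ∧ ∀ a ∈ ⁅N, N⁆, a ^ e ∈ K := by
  obtain ⟨n, s, hs⟩ := Module.Finite.exists_fin (R := R) (M := M)
  obtain ⟨e, he, h1⟩ := hC n ν (fun k => (hν k).1)
  refine ⟨e, he, ?_⟩
  -- the derived subgroup of `N` as a group
  let D : Subgroup N := commutator N
  let X : Set D := {z | ∃ a b : N, ⁅a, b⁆ = (z : N)}
  have hX1 : (1 : D) ∈ X := ⟨1, 1, by simp⟩
  have hXi : ∀ x ∈ X, x⁻¹ ∈ X := by
    rintro x ⟨a, b, h⟩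
    refine ⟨b, a, ?_⟩
    rw [Subgroup.coe_inv, ← h, commutatorElement_inv]
  have hXc : ∀ x ∈ X, ∀ g : D, g * x * g⁻¹ ∈ X := by
    rintro x ⟨a, b, h⟩ g
    refine ⟨(g : N) * a * (g : N)⁻¹, (g : N) * b * (g : N)⁻¹, ?_⟩
    rw [Subgroup.coe_mul, Subgroup.coe_mul, Subgroup.coe_inv, ← h]
    simp only [commutatorElement_def]
    group
  have hXt : Subgroup.closure X = ⊤ := by
    rw [eq_top_iff]
    rintro ⟨g, hg⟩ _
    have hg' := hg
    rw [show D = commutator N from rfl, commutator_def, Subgroup.commutator_def] at hg'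
    have key : ∀ g : N, ∀ _ : g ∈ Subgroup.closure
        {z | ∃ g₁ ∈ (⊤ : Subgroup N), ∃ g₂ ∈ (⊤ : Subgroup N), ⁅g₁, g₂⁆ = z},
        ∀ hg : g ∈ D, (⟨g, hg⟩ : D) ∈ Subgroup.closure X := by
      intro g hg1
      induction hg1 using Subgroup.closure_induction with
      | mem z hz =>
        intro hz'
        obtain ⟨a, _, b, _, rfl⟩ := hz
        exact Subgroup.subset_closure ⟨a, b, rfl⟩
      | one =>
        intro h
        exact Subgroup.one_mem _
      | mul a b ha hb iha ihb =>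
        intro h
        have ha' : a ∈ D := by
          show a ∈ commutator N
          rw [commutator_def, Subgroup.commutator_def]
          exact ha
        have hb' : b ∈ D := by
          show b ∈ commutator N
          rw [commutator_def, Subgroup.commutator_def]
          exact hb
        exact Subgroup.mul_mem _ (iha ha') (ihb hb')
      | inv a ha iha =>
        intro h
        have ha' : a ∈ D := by
          show a ∈ commutator N
          rw [commutator_def, Subgroup.commutator_def]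
          exact ha
        exact Subgroup.inv_mem _ (iha ha')
    exact key g hg' hg
  have hlaw : ∀ (k : ℕ) (a : ℕ → D), (∀ i, a i ∈ X) →
      ((List.range k).map a).prod ^ ν k = 1 := by
    intro k a ha
    choose b c hbc using ha
    have h2 : ((((List.range k).map a).prod : D) : N) =
        ((List.range k).map fun i => ⁅b i, c i⁆).prod := by
      show D.subtype _ = _
      rw [map_list_prod, List.map_map]
      congr 1
      refine List.map_congr_left fun i _ => ?_
      exact (hbc i).symm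
    have h3 : (((((List.range k).map a).prod : D) : N) : G) =
        pc (fun i => (b i : G)) (fun i => (c i : G)) k := by
      rw [h2]
      show N.subtype _ = _
      rw [map_list_prod, List.map_map]
      rfl
    refine Subtype.ext (Subtype.ext ?_)
    rw [Subgroup.coe_pow, Subgroup.coe_pow, h3, (hν k).2]
    rfl
  intro a ha
  -- `a` is an element of the derived subgroup of `N`
  have haN : a ∈ N := by
    have h4 : ⁅N, N⁆ ≤ N := Subgroup.commutator_le.2 fun x hx y hy => by
      rw [commutatorElement_def]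
      exact N.mul_mem (N.mul_mem (N.mul_mem hx hy) (N.inv_mem hx)) (N.inv_mem hy)
    exact h4 ha
  have haD : (⟨a, haN⟩ : N) ∈ D := by
    have h5 : (commutator N).map N.subtype = ⁅N, N⁆ := by
      rw [commutator_def, Subgroup.map_commutator, ← MonoidHom.range_eq_map,
        Subgroup.range_subtype]
    rw [← h5] at ha
    obtain ⟨z, hz, hza⟩ := ha
    have h6 : (⟨a, haN⟩ : N) = z := Subtype.ext hza.symm
    rw [h6]
    exact hz
  have h7 := h1 D R M (ρ.comp D.subtype) X hX1 hXi hXc hXt hlaw ⟨s, hs⟩ ⟨⟨a, haN⟩, haD⟩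
  have h8 : ρ ((⟨a, haN⟩ : N) ^ e) = 1 := h7
  have h9 := hρ _ h8
  exact h9

/-- chains with three kinds of steps -/
theorem chain3 (hC : T_CORE.{u, v, w}) (hREL : T_REL.{u}) {G : Type u} [Group G] (X : Set G)
    (hX : Subgroup.closure X = ⊤)
    (hfree : ∀ f : X → G, ∃ φ : G →* G, ∀ x : X, φ (x : G) = f x)
    (hper : ∀ g ∈ commutator G, IsOfFinOrder g)
    (k : ℕ) (N : ℕ → Subgroup G) (h0 : commutator G ≤ N 0)
    (hN : ∀ i < k, (∃ e : ℕ, 0 < e ∧ ∀ a ∈ N i, a ^ e ∈ N (i + 1)) ∨
      (∃ c : ℕ, ∀ a ∈ N i, ∀ b ∈ N i,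
        (Subgroup.closure {a, b}).lowerCentralSeries c ≤ N (i + 1)) ∨
      ∃ (R : Type v) (M : Type w) (_ : CommRing R) (_ : AddCommGroup M) (_ : Module R M)
        (ρ : N i →* (M ≃ₗ[R] M)), Module.Finite R M ∧
        ∀ a : N i, ρ a = 1 → (a : G) ∈ N (i + 1)) :
    ∃ n : ℕ, 0 < n ∧ ∀ g ∈ commutator G, g ^ n ∈ N k := by
  classical
  obtain ⟨m, hm⟩ := Pool.Agent.H67.RF.pr_of_relfree G X hX hfree hper
  obtain ⟨ν, hν⟩ := laws hREL X hX hfree hper
  -- every step is two steps of the kinds (b) and (n)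
  have hstep : ∀ i < k, ∃ D : Subgroup G,
      ((∃ e : ℕ, 0 < e ∧ ∀ a ∈ N i, a ^ e ∈ D) ∨ ∃ c : ℕ, ∀ a ∈ N i, ∀ b ∈ N i,
        (Subgroup.closure {a, b}).lowerCentralSeries c ≤ D) ∧
      ((∃ e : ℕ, 0 < e ∧ ∀ a ∈ D, a ^ e ∈ N (i + 1)) ∨ ∃ c : ℕ, ∀ a ∈ D, ∀ b ∈ D,
        (Subgroup.closure {a, b}).lowerCentralSeries c ≤ N (i + 1)) := by
    intro i hi
    rcases hN i hi with h | h | ⟨R, M, _, _, _, ρ, hfin, hρ⟩
    · exact ⟨N i, Or.inl ⟨1, one_pos, fun a ha => by simpa using ha⟩, Or.inl h⟩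
    · exact ⟨N i, Or.inl ⟨1, one_pos, fun a ha => by simpa using ha⟩, Or.inr h⟩
    · refine ⟨⁅N i, N i⁆, Or.inr ⟨1, fun a ha b hb => ?_⟩, Or.inl ?_⟩
      · have h1 : Subgroup.closure {a, b} ≤ N i := by
          rw [Subgroup.closure_le]
          rintro x (rfl | rfl)
          · exact ha
          · exact hb
        rw [Subgroup.lowerCentralSeries_succ]
        refine Subgroup.commutator_mono ?_ h1
        exact (Subgroup.lowerCentralSeries_le_self _ _).trans h1
      · have := hfin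
        exact lin_step hC ν hν (N i) (N (i + 1)) R M ρ hρ
  choose! D hD using hstep
  have hchain := Pool.Agent.H67.RF.chain hm (2 * k)
    (fun j => if j % 2 = 0 then N (j / 2) else D (j / 2)) (by simpa using h0) (by
      intro j hj
      have hj2 : j / 2 < k := by omega
      rcases Nat.even_or_odd' j with ⟨t, rfl | rfl⟩
      · have e1 : (2 * t) % 2 = 0 := by omega
        have e2 : (2 * t) / 2 = t := by omega
        have e3 : (2 * t + 1) % 2 = 1 := by omega
        have e4 : (2 * t + 1) / 2 = t := by omega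
        simp only [e1, e2, e3, e4, if_true, one_ne_zero, if_false]
        exact (hD t (by omega)).1
      · have e3 : (2 * t + 1) % 2 = 1 := by omega
        have e4 : (2 * t + 1) / 2 = t := by omega
        have e5 : (2 * t + 1 + 1) % 2 = 0 := by omega
        have e6 : (2 * t + 1 + 1) / 2 = t + 1 := by omega
        simp only [e3, e4, e5, e6, if_true, one_ne_zero, if_false]
        exact (hD t (by omega)).2)
  have e1 : (2 * k) % 2 = 0 := by omega
  have e2 : (2 * k) / 2 = k := by omega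
  simpa only [e1, e2, if_true] using hchain

end Pool.Agent.H87.CLG
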