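import Pool.Agent.H65.CLG.MOR
import Pool.Agent.H86.CLG.LID
import Pool.Agent.H68.CLG.NIL
import Pool.Agent.H46.CLG.HIG
import Pool.Agent.H79.CLG.RWO
import Pool.Agent.H36.CLG.ACM
import Pool.Agent.H68.CLG.UNI
import Pool.Agent.H1.CLG.PCM
import Pool.Agent.H89.CLG.ACI
import Pool.Agent.H61.CLG.LEM
import Pool.Agent.H86.CLG.LEQ
import Pool.Agent.H7.CLG.REL

/-!
# Noetherianity of polynomial rings in infinitely many variables up to strictly increasing
substitutions; products of commutators (MP_335823_al): all modules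
-/

set_option autoImplicit false

namespace Pool.Agent.H87.CLG

universe u

theorem leq : T_LEQ := Pool.Agent.H86.CLG.pf_LEQ Pool.Agent.H79.CLG.pf_RWO

/-- ascending chains of stable submodules are finite -/
theorem acm : T_ACM := Pool.Agent.H36.CLG.pf_ACM Pool.Agent.H46.CLG.pf_HIG
  Pool.Agent.H65.CLG.pf_MOR Pool.Agent.H86.CLG.pf_LID Pool.Agent.H61.CLG.pf_LEM leq

/-- ascending chains of stable ideals are finite -/
theorem aci : T_ACI := Pool.Agent.H89.CLG.pf_ACI acm

theorem nil : T_NIL := Pool.Agent.H68.CLG.pf_NIL aci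

theorem uni : T_UNI.{u} := Pool.Agent.H68.CLG.pf_UNI

theorem pcm : T_PCM.{u} := Pool.Agent.H1.CLG.pf_PCM

theorem rel : T_REL.{u} := Pool.Agent.H7.CLG.pf_REL

end Pool.Agent.H87.CLG
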