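import Pool.Agent.H87.CLG.Rel2
import Pool.Agent.H11.LGR.Targets

/-!
# Chains with linear factors (MP_335823_al): assembly
-/

set_option autoImplicit false

open scoped commutatorElement

namespace Pool.Agent.H87.CLG

open Pool.Agent.H11.LGR (T_VRB)

universe u v w

theorem pc_map {N K : Type u} [Group N] [Group K] (f : N →* K) (a b : ℕ → N) (k : ℕ) :
    pc (fun i => f (a i)) (fun i => f (b i)) k = f (pc a b k) := by
  induction k with
  | zero => rw [pc_zero, pc_zero, map_one]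
  | succ k ih => rw [pc_succ, pc_succ, map_mul, map_commutatorElement, ih]

theorem pc_quot {G : Type u} [Group G] {k n : ℕ} (N : Subgroup G) (K : Subgroup N) [K.Normal]
    (hν : ∀ a b : ℕ → G, pc a b k ^ n = 1) (b c : ℕ → N ⧸ K) : pc b c k ^ n = 1 := by
  choose b' hb' using fun i => QuotientGroup.mk'_surjective K (b i)
  choose c' hc' using fun i => QuotientGroup.mk'_surjective K (c i)
  have h8 : pc b c k = QuotientGroup.mk' K (pc b' c' k) := by
    rw [← pc_map]
    congr 1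
    · funext i; exact (hb' i).symm
    · funext i; exact (hc' i).symm
  have h9 : N.subtype (pc b' c' k ^ n) = 1 := by
    rw [map_pow, ← pc_map N.subtype b' c' k]
    exact hν _ _
  have h10 : pc b' c' k ^ n = 1 := Subtype.ext h9
  rw [h8, ← map_pow, h10, map_one]

/-- the faithful action of the quotient by the kernel -/
theorem exists_lift {N : Type u} [Group N] {A : Type w} [Monoid A] (ρ : N →* A) :
    ∃ τ : N ⧸ ρ.ker →* A, Function.Injective τ := by
  refine ⟨QuotientGroup.lift ρ.ker ρ le_rfl, ?_⟩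
  intro x y hxy
  obtain ⟨a, rfl⟩ := QuotientGroup.mk_surjective x
  obtain ⟨b, rfl⟩ := QuotientGroup.mk_surjective y
  rw [QuotientGroup.lift_mk, QuotientGroup.lift_mk] at hxy
  rw [QuotientGroup.eq, MonoidHom.mem_ker, map_mul, ← hxy, ← map_mul, inv_mul_cancel, map_one]

theorem mem_comm {G : Type u} [Group G] (N : Subgroup G) (a : G) (ha : a ∈ ⁅N, N⁆) :
    ∃ z : N, z ∈ commutator N ∧ (z : G) = a := by
  have h5 : (commutator N).map N.subtype = ⁅N, N⁆ := by
    rw [commutator_def, Subgroup.map_commutator, ← MonoidHom.range_eq_map,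
      Subgroup.range_subtype]
  rw [← h5] at ha
  obtain ⟨z, hz, hza⟩ := ha
  exact ⟨z, hz, hza⟩

/-- the step for linear factors -/
theorem lin_step2 (hC : T_VRB.{u, v, w}) {G : Type u} [Group G] (ν : ℕ → ℕ)
    (hν : ∀ k, 1 ≤ ν k ∧ ∀ a b : ℕ → G, pc a b k ^ ν k = 1) (N K : Subgroup G)
    (R : Type v) [CommRing R] (M : Type w) [AddCommGroup M] [Module R M] [Module.Finite R M]
    (ρ : N →* Module.End R M) (hρ : ∀ a : N, ρ a = 1 → (a : G) ∈ K) :
    ∃ e : ℕ, 0 < e ∧ ∀ a ∈ ⁅N, N⁆, a ^ e ∈ K := by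
  obtain ⟨n, s, hs⟩ := Module.Finite.exists_fin (R := R) (M := M)
  obtain ⟨e, he, h1⟩ := hC n ν (fun k => (hν k).1)
  refine ⟨e, he, fun a ha => ?_⟩
  obtain ⟨z, hz, rfl⟩ := mem_comm N a ha
  have h2 : ∀ (k : ℕ) (b c : ℕ → N ⧸ ρ.ker), pc b c k ^ ν k = 1 := fun k b c =>
    pc_quot N ρ.ker (hν k).2 b c
  have h3 : QuotientGroup.mk' ρ.ker z ∈ commutator (N ⧸ ρ.ker) := by
    have h12 : (commutator N).map (QuotientGroup.mk' ρ.ker) ≤ commutator (N ⧸ ρ.ker) := by
      rw [commutator_def, commutator_def, Subgroup.map_commutator]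
      exact Subgroup.commutator_mono le_top le_top
    exact h12 ⟨_, hz, rfl⟩
  obtain ⟨τ, hτ⟩ := exists_lift ρ
  have h7 := h1 (N ⧸ ρ.ker) R M s τ hs hτ h2 (QuotientGroup.mk' ρ.ker z) h3
  have h8 : QuotientGroup.mk' ρ.ker (z ^ e) = 1 := by
    rw [map_pow]
    exact h7
  have h13 : z ^ e ∈ ρ.ker := (QuotientGroup.eq_one_iff _).1 h8
  have h14 := hρ (z ^ e) h13
  rw [Subgroup.coe_pow] at h14
  exact h14

/-- chains with three kinds of steps -/
theorem chain4 (hC : T_VRB.{u, v, w}) (hREL : T_REL.{u}) {G : Type u} [Group G] (X : Set G)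
    (hX : Subgroup.closure X = ⊤)
    (hfree : ∀ f : X → G, ∃ φ : G →* G, ∀ x : X, φ (x : G) = f x)
    (hper : ∀ g ∈ commutator G, IsOfFinOrder g)
    (k : ℕ) (N : ℕ → Subgroup G) (h0 : commutator G ≤ N 0)
    (hN : ∀ i < k, (∃ e : ℕ, 0 < e ∧ ∀ a ∈ N i, a ^ e ∈ N (i + 1)) ∨
      (∃ c : ℕ, ∀ a ∈ N i, ∀ b ∈ N i,
        (Subgroup.closure {a, b}).lowerCentralSeries c ≤ N (i + 1)) ∨
      ∃ (R : Type v) (M : Type w) (_ : CommRing R) (_ : AddCommGroup M) (_ : Module R M)
        (_ : Module.Finite R M) (ρ : N i →* Module.End R M),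
        ∀ a : N i, ρ a = 1 → (a : G) ∈ N (i + 1)) :
    ∃ n : ℕ, 0 < n ∧ ∀ g ∈ commutator G, g ^ n ∈ N k := by
  classical
  obtain ⟨m, hm⟩ := Pool.Agent.H67.RF.pr_of_relfree G X hX hfree hper
  obtain ⟨ν, hν⟩ := laws hREL X hX hfree hper
  -- every step is two steps of the kinds (b) and (n)
  have hstep : ∀ i < k, ∃ D : Subgroup G,
      ((∃ e : ℕ, 0 < e ∧ ∀ a ∈ N i, a ^ e ∈ D) ∨ ∃ c : ℕ, ∀ a ∈ N i, ∀ b ∈ N i,
        (Subgroup.closure {a, b}).lowerCentralSeries c ≤ D) ∧
      ((∃ e : ℕ, 0 < e ∧ ∀ a ∈ D, a ^ e ∈ N (i + 1)) ∨ ∃ c : ℕ, ∀ a ∈ D, ∀ b ∈ D,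
        (Subgroup.closure {a, b}).lowerCentralSeries c ≤ N (i + 1)) := by
    intro i hi
    rcases hN i hi with h | h | ⟨R, M, _, _, _, _, ρ, hρ⟩
    · exact ⟨N i, Or.inl ⟨1, one_pos, fun a ha => by simpa using ha⟩, Or.inl h⟩
    · exact ⟨N i, Or.inl ⟨1, one_pos, fun a ha => by simpa using ha⟩, Or.inr h⟩
    · refine ⟨⁅N i, N i⁆, Or.inr ⟨1, fun a ha b hb => ?_⟩, Or.inl ?_⟩
      · have h1 : Subgroup.closure {a, b} ≤ N i := by
          rw [Subgroup.closure_le]
          rintro x (rfl | rfl)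
          · exact ha
          · exact hb
        rw [Subgroup.lowerCentralSeries_succ]
        refine Subgroup.commutator_mono ?_ h1
        exact (Subgroup.lowerCentralSeries_le_self _ _).trans h1
      · exact lin_step2 hC ν hν (N i) (N (i + 1)) R M ρ hρ
  choose! D hD using hstep
  have hchain := Pool.Agent.H67.RF.chain hm (2 * k)
    (fun j => if j % 2 = 0 then N (j / 2) else D (j / 2)) (by simpa using h0) (by
      intro j hj
      have hj2 : j / 2 < k := by omega
      rcases Nat.even_or_odd' j with ⟨t, rfl | rfl⟩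
      · have e1 : (2 * t) % 2 = 0 := by omega
        have e2 : (2 * t) / 2 = t := by omega
        have e3 : (2 * t + 1) % 2 = 1 := by omega
        have e4 : (2 * t + 1) / 2 = t := by omega
        simp only [e1, e2, e3, e4, if_true, one_ne_zero, if_false]
        exact (hD t (by omega)).1
      · have e3 : (2 * t + 1) % 2 = 1 := by omega
        have e4 : (2 * t + 1) / 2 = t := by omega
        have e5 : (2 * t + 1 + 1) % 2 = 0 := by omega
        have e6 : (2 * t + 1 + 1) / 2 = t + 1 := by omega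
        simp only [e3, e4, e5, e6, if_true, one_ne_zero, if_false]
        exact (hD t (by omega)).2)
  have e1 : (2 * k) % 2 = 0 := by omega
  have e2 : (2 * k) / 2 = k := by omega
  simpa only [e1, e2, if_true] using hchain

end Pool.Agent.H87.CLG
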