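import Pool.Agent.H87.CLG.Asm2

/-!
# Chains with locally linear factors (MP_335823_al): assembly
-/

set_option autoImplicit false

open scoped commutatorElement

namespace Pool.Agent.H87.CLG

open Pool.Agent.H11.LGR (T_VRB)

universe u v w

/-- one representation -/
theorem lin_one {G : Type u} [Group G] {ν : ℕ → ℕ} {n e : ℕ}
    (h1 : ∀ (N : Type u) (R : Type v) (M : Type w) [Group N] [CommRing R] [AddCommGroup M]
      [Module R M] (g : Fin n → M) (ρ : N →* Module.End R M),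
      Submodule.span R (Set.range g) = ⊤ → Function.Injective ρ →
      (∀ (k : ℕ) (a b : ℕ → N), pc a b k ^ ν k = 1) → ∀ h ∈ commutator N, h ^ e = 1)
    (hν : ∀ k, ∀ a b : ℕ → G, pc a b k ^ ν k = 1) (H K : Subgroup G)
    (R : Type v) [CommRing R] (M : Type w) [AddCommGroup M] [Module R M] (s : Fin n → M)
    (hs : Submodule.span R (Set.range s) = ⊤)
    (ρ : H →* Module.End R M) (hρ : ∀ a : H, ρ a = 1 → (a : G) ∈ K) :
    ∀ a ∈ ⁅H, H⁆, a ^ e ∈ K := by
  intro a ha
  obtain ⟨z, hz, rfl⟩ := mem_comm H a ha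
  have h2 : ∀ (k : ℕ) (b c : ℕ → H ⧸ ρ.ker), pc b c k ^ ν k = 1 := fun k b c =>
    pc_quot H ρ.ker (hν k) b c
  have h3 : QuotientGroup.mk' ρ.ker z ∈ commutator (H ⧸ ρ.ker) := by
    have h12 : (commutator H).map (QuotientGroup.mk' ρ.ker) ≤ commutator (H ⧸ ρ.ker) := by
      rw [commutator_def, commutator_def, Subgroup.map_commutator]
      exact Subgroup.commutator_mono le_top le_top
    exact h12 ⟨_, hz, rfl⟩
  obtain ⟨τ, hτ⟩ := exists_lift ρ
  have h7 := h1 (H ⧸ ρ.ker) R M s τ hs hτ h2 (QuotientGroup.mk' ρ.ker z) h3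
  have h8 : QuotientGroup.mk' ρ.ker (z ^ e) = 1 := by
    rw [map_pow]
    exact h7
  have h13 : z ^ e ∈ ρ.ker := (QuotientGroup.eq_one_iff _).1 h8
  have h14 := hρ (z ^ e) h13
  rw [Subgroup.coe_pow] at h14
  exact h14

/-- an element of the derived subgroup belongs to the derived subgroup of a finitely generated
subgroup -/
theorem fg_comm (hP : T_PCM.{u}) {G : Type u} [Group G] (N : Subgroup G) (g : G)
    (hg : g ∈ ⁅N, N⁆) : ∃ H : Subgroup G, H ≤ N ∧ H.FG ∧ g ∈ ⁅H, H⁆ := by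
  obtain ⟨z, hz, rfl⟩ := mem_comm N g hg
  obtain ⟨k, a, b, hz2⟩ := hP N z hz
  have hfin : ((fun i => (a i : G)) '' Set.Iio k ∪ (fun i => (b i : G)) '' Set.Iio k).Finite :=
    ((Set.finite_Iio k).image _).union ((Set.finite_Iio k).image _)
  refine ⟨Subgroup.closure ((fun i => (a i : G)) '' Set.Iio k ∪
    (fun i => (b i : G)) '' Set.Iio k), ?_, ?_, ?_⟩
  · rw [Subgroup.closure_le]
    rintro x (⟨i, _, rfl⟩ | ⟨i, _, rfl⟩)
    · exact (a i).2
    · exact (b i).2
  · exact ⟨hfin.toFinset, by rw [Set.Finite.coe_toFinset]⟩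
  · set H := Subgroup.closure ((fun i => (a i : G)) '' Set.Iio k ∪
      (fun i => (b i : G)) '' Set.Iio k) with hH
    have h1 : (z : G) = pc (fun i => (a i : G)) (fun i => (b i : G)) k := by
      rw [hz2]
      exact (pc_map N.subtype a b k).symm
    have h2 : ∀ j ≤ k, pc (fun i => (a i : G)) (fun i => (b i : G)) j ∈ ⁅H, H⁆ := by
      intro j
      induction j with
      | zero => intro _; rw [pc_zero]; exact one_mem _
      | succ j ih =>
        intro hj
        rw [pc_succ]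
        refine mul_mem (ih (by omega)) (Subgroup.commutator_mem_commutator ?_ ?_)
        · exact Subgroup.subset_closure (Or.inl ⟨j, (by show j < k; omega), rfl⟩)
        · exact Subgroup.subset_closure (Or.inr ⟨j, (by show j < k; omega), rfl⟩)
    rw [h1]
    exact h2 k le_rfl

/-- the step for locally linear factors -/
theorem lin_step3 (hC : T_VRB.{u, v, w}) (hP : T_PCM.{u}) {G : Type u} [Group G] (ν : ℕ → ℕ)
    (hν : ∀ k, 1 ≤ ν k ∧ ∀ a b : ℕ → G, pc a b k ^ ν k = 1) (N K : Subgroup G) (n : ℕ)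
    (h : ∀ H : Subgroup G, H ≤ N → H.FG → ∃ (R : Type v) (M : Type w) (_ : CommRing R)
      (_ : AddCommGroup M) (_ : Module R M) (s : Fin n → M) (ρ : H →* Module.End R M),
      Submodule.span R (Set.range s) = ⊤ ∧ ∀ a : H, ρ a = 1 → (a : G) ∈ K) :
    ∃ e : ℕ, 0 < e ∧ ∀ a ∈ ⁅N, N⁆, a ^ e ∈ K := by
  obtain ⟨e, he, h1⟩ := hC n ν (fun k => (hν k).1)
  refine ⟨e, he, fun a ha => ?_⟩
  obtain ⟨H, hHN, hHf, haH⟩ := fg_comm hP N a ha
  obtain ⟨R, M, _, _, _, s, ρ, hs, hρ⟩ := h H hHN hHf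
  exact lin_one (fun N R M _ _ _ _ => h1 N R M) (fun k => (hν k).2) H K R M s hs ρ hρ a haH

/-- chains with three kinds of steps -/
theorem chain5 (hC : T_VRB.{u, v, w}) (hP : T_PCM.{u}) (hREL : T_REL.{u}) {G : Type u} [Group G]
    (X : Set G) (hX : Subgroup.closure X = ⊤)
    (hfree : ∀ f : X → G, ∃ φ : G →* G, ∀ x : X, φ (x : G) = f x)
    (hper : ∀ g ∈ commutator G, IsOfFinOrder g)
    (k : ℕ) (N : ℕ → Subgroup G) (h0 : commutator G ≤ N 0)
    (hN : ∀ i < k, (∃ e : ℕ, 0 < e ∧ ∀ a ∈ N i, a ^ e ∈ N (i + 1)) ∨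
      (∃ c : ℕ, ∀ a ∈ N i, ∀ b ∈ N i,
        (Subgroup.closure {a, b}).lowerCentralSeries c ≤ N (i + 1)) ∨
      ∃ n : ℕ, ∀ H : Subgroup G, H ≤ N i → H.FG → ∃ (R : Type v) (M : Type w) (_ : CommRing R)
        (_ : AddCommGroup M) (_ : Module R M) (s : Fin n → M) (ρ : H →* Module.End R M),
        Submodule.span R (Set.range s) = ⊤ ∧ ∀ a : H, ρ a = 1 → (a : G) ∈ N (i + 1)) :
    ∃ n : ℕ, 0 < n ∧ ∀ g ∈ commutator G, g ^ n ∈ N k := by
  classical
  obtain ⟨m, hm⟩ := Pool.Agent.H67.RF.pr_of_relfree G X hX hfree hper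
  obtain ⟨ν, hν⟩ := laws hREL X hX hfree hper
  -- every step is two steps of the kinds (b) and (n)
  have hstep : ∀ i < k, ∃ D : Subgroup G,
      ((∃ e : ℕ, 0 < e ∧ ∀ a ∈ N i, a ^ e ∈ D) ∨ ∃ c : ℕ, ∀ a ∈ N i, ∀ b ∈ N i,
        (Subgroup.closure {a, b}).lowerCentralSeries c ≤ D) ∧
      ((∃ e : ℕ, 0 < e ∧ ∀ a ∈ D, a ^ e ∈ N (i + 1)) ∨ ∃ c : ℕ, ∀ a ∈ D, ∀ b ∈ D,
        (Subgroup.closure {a, b}).lowerCentralSeries c ≤ N (i + 1)) := by
    intro i hi
    rcases hN i hi with h | h | ⟨n, h⟩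
    · exact ⟨N i, Or.inl ⟨1, one_pos, fun a ha => by simpa using ha⟩, Or.inl h⟩
    · exact ⟨N i, Or.inl ⟨1, one_pos, fun a ha => by simpa using ha⟩, Or.inr h⟩
    · refine ⟨⁅N i, N i⁆, Or.inr ⟨1, fun a ha b hb => ?_⟩, Or.inl ?_⟩
      · have h1 : Subgroup.closure {a, b} ≤ N i := by
          rw [Subgroup.closure_le]
          rintro x (rfl | rfl)
          · exact ha
          · exact hb
        rw [Subgroup.lowerCentralSeries_succ]
        refine Subgroup.commutator_mono ?_ h1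
        exact (Subgroup.lowerCentralSeries_le_self _ _).trans h1
      · exact lin_step3 hC hP ν hν (N i) (N (i + 1)) n h
  choose! D hD using hstep
  have hchain := Pool.Agent.H67.RF.chain hm (2 * k)
    (fun j => if j % 2 = 0 then N (j / 2) else D (j / 2)) (by simpa using h0) (by
      intro j hj
      have hj2 : j / 2 < k := by omega
      rcases Nat.even_or_odd' j with ⟨t, rfl | rfl⟩
      · have e1 : (2 * t) % 2 = 0 := by omega
        have e2 : (2 * t) / 2 = t := by omega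
        have e3 : (2 * t + 1) % 2 = 1 := by omega
        have e4 : (2 * t + 1) / 2 = t := by omega
        simp only [e1, e2, e3, e4, if_true, one_ne_zero, if_false]
        exact (hD t (by omega)).1
      · have e3 : (2 * t + 1) % 2 = 1 := by omega
        have e4 : (2 * t + 1) / 2 = t := by omega
        have e5 : (2 * t + 1 + 1) % 2 = 0 := by omega
        have e6 : (2 * t + 1 + 1) / 2 = t + 1 := by omega
        simp only [e3, e4, e5, e6, if_true, one_ne_zero, if_false]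
        exact (hD t (by omega)).2)
  have e1 : (2 * k) % 2 = 0 := by omega
  have e2 : (2 * k) / 2 = k := by omega
  simpa only [e1, e2, if_true] using hchain

end Pool.Agent.H87.CLG
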