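import Pool.Agent.H67.RF.Chain
import Pool.Agent.H87.CLG.Targets

/-!
# Products of commutators in relatively free groups (MP_335823_al)
-/

set_option autoImplicit false

open scoped commutatorElement

namespace Pool.Agent.H87.CLG

universe u v w

theorem pc_zero {N : Type u} [Group N] (a b : ℕ → N) : pc a b 0 = 1 := by
  simp [pc]

theorem pc_succ {N : Type u} [Group N] (a b : ℕ → N) (k : ℕ) :
    pc a b (k + 1) = pc a b k * ⁅a k, b k⁆ := by
  simp [pc, List.range_succ]

theorem pc_mem {N : Type u} [Group N] (a b : ℕ → N) (k : ℕ) : pc a b k ∈ commutator N := by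
  induction k with
  | zero => rw [pc_zero]; exact one_mem _
  | succ k ih =>
    rw [pc_succ]
    exact mul_mem ih (Subgroup.commutator_mem_commutator (Subgroup.mem_top _)
      (Subgroup.mem_top _))

/-- in a relatively free group with periodic derived subgroup the products of `k` commutators have
bounded order, for every `k` -/
theorem laws (hREL : T_REL.{u}) {G : Type u} [Group G] (X : Set G)
    (hX : Subgroup.closure X = ⊤)
    (hrf : ∀ f : X → G, ∃ φ : G →* G, ∀ x : X, φ (x : G) = f x)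
    (hper : ∀ g ∈ commutator G, IsOfFinOrder g) :
    ∃ ν : ℕ → ℕ, ∀ k, 1 ≤ ν k ∧ ∀ a b : ℕ → G, pc a b k ^ ν k = 1 := by
  obtain ⟨m, hm⟩ := Pool.Agent.H67.RF.pr_of_relfree G X hX hrf hper
  obtain ⟨-, m₁, hm₁, h1⟩ := hREL G X hX hrf hper
  have key : ∀ k : ℕ, ∃ n : ℕ, 1 ≤ n ∧ ∀ a b : ℕ → G, pc a b k ^ n = 1 := by
    intro k
    induction k with
    | zero => exact ⟨1, le_rfl, fun a b => by rw [pc_zero, one_pow]⟩
    | succ k ih =>
      obtain ⟨n, hn, h2⟩ := ih
      obtain ⟨l, hl, h3⟩ := hm.pw (n * m₁) (by positivity)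
      refine ⟨n * m₁ * l, Nat.one_le_iff_ne_zero.2 (by positivity), fun a b => ?_⟩
      have h4 := h3 ⟨pc a b k, pc_mem a b k⟩ ⟨⁅a k, b k⁆,
        Subgroup.commutator_mem_commutator (Subgroup.mem_top _) (Subgroup.mem_top _)⟩
      have h5 : (pc a b k * ⁅a k, b k⁆) ^ (n * m₁) = 1 ∨ True := Or.inr trivial
      have h6 : (((pc a b k * ⁅a k, b k⁆) ^ (n * m₁) * (⁅a k, b k⁆ ^ (n * m₁))⁻¹ *
          (pc a b k ^ (n * m₁))⁻¹) ^ l : G) = 1 := congrArg Subtype.val h4
      have h7 : ⁅a k, b k⁆ ^ (n * m₁) = 1 := by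
        rw [mul_comm, pow_mul, h1, one_pow]
      have h8 : pc a b k ^ (n * m₁) = 1 := by
        rw [pow_mul, h2, one_pow]
      rw [h7, h8, inv_one, mul_one, mul_one, ← pow_mul] at h6
      rw [pc_succ]
      exact h6
  choose ν hν using key
  exact ⟨ν, hν⟩

end Pool.Agent.H87.CLG
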